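import Mathlib
import Pool.Agent.H472R3.Words

set_option autoImplicit false

/-!
# The co-volume of the tree of a free group that is immersed in a weighted rose
-/

namespace Pool.Agent.X72.CV

open Pool.Agent.H472R3 FreeGroup

variable {N M : ℕ}

/-- `p` lies on the segment `[a, b]`. -/
def Between {T : Type} [MetricSpace T] (a p b : T) : Prop := dist a p + dist p b = dist a b

/-- The quotient of the tree `A` by the free group is a finite metric graph with total edge length
`v`: there are finitely many segments `[x i, y i]` (the edges), of total length `v`, whose translates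
cover the tree, and an interior point of a segment lies in no other translate of a segment. -/
def HasCovolume (A : FTree N) (v : ℝ) : Prop :=
  ∃ (n : ℕ) (x y : Fin n → A.T), (∀ i, x i ≠ y i) ∧
    (∀ p : A.T, ∃ (g : FreeGroup (Fin N)) (i : Fin n), Between (g • x i) p (g • y i)) ∧
    (∀ (i j : Fin n) (g : FreeGroup (Fin N)) (p : A.T), Between (x i) p (y i) → p ≠ x i →
      p ≠ y i → Between (g • x j) p (g • y j) → g = 1 ∧ j = i) ∧
    v = ∑ i, dist (x i) (y i)

/-- The length function of a weighted rose pulled back by a homomorphism. -/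
noncomputable def lf {w : Fin M → ℝ} (hw : ∀ i, 0 ≤ w i)
    (φ : FreeGroup (Fin N) →* FreeGroup (Fin M)) : LenFn N where
  L g := wl w (φ g)
  one := by rw [_root_.map_one]; simp [wl, W]
  inv g := by rw [_root_.map_inv, wl_inv]
  um g h k := by
    simp only [_root_.map_mul, _root_.map_inv]
    rw [wl_gp, wl_gp, wl_gp]
    exact cp_um hw _ _ _

variable {w : Fin M → ℝ} (hw : ∀ i, 0 ≤ w i) (φ : FreeGroup (Fin N) →* FreeGroup (Fin M))

theorem wl_nonneg {w : Fin M → ℝ} (hw : ∀ i, 0 ≤ w i) (k : FreeGroup (Fin M)) : 0 ≤ wl w k :=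
  W_nonneg hw _

theorem lf_L (g : FreeGroup (Fin N)) : (lf hw φ).L g = wl w (φ g) := rfl

theorem d_lf (g : FreeGroup (Fin N)) : (lf hw φ).hyp.d 1 g = wl w (φ g) := by
  rw [LenFn.hyp_d, inv_one, one_mul]; rfl

theorem gp_lf (g h : FreeGroup (Fin N)) :
    (lf hw φ).hyp.gp 1 g h = cp w (φ g).toWord (φ h).toWord := by
  unfold Hull.Hyp.gp
  rw [d_lf, d_lf, LenFn.hyp_d, lf_L, _root_.map_mul, _root_.map_inv, wl_gp]

/-- the tree of the rose -/
noncomputable abbrev X : FTree M := (lf hw (MonoidHom.id _)).tree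

/-- its vertices -/
noncomputable def V (k : FreeGroup (Fin M)) : (X hw).T := (lf hw (MonoidHom.id _)).hyp.v k

theorem V_smul (g k : FreeGroup (Fin M)) : g • V hw k = V hw (g * k) :=
  LenFn.smul_v _ _ _

theorem dist_V (k l : FreeGroup (Fin M)) : dist (V hw k) (V hw l) = wl w (k⁻¹ * l) :=
  (lf hw (MonoidHom.id _)).hyp.dist_v k l

/-- the point at distance `t` from the base point in the direction of `k` -/
noncomputable def Q (k : FreeGroup (Fin M)) (t : ℝ) (h0 : 0 ≤ t) (h1 : t ≤ wl w k) : (X hw).T :=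
  (lf hw (MonoidHom.id _)).hyp.P 1 k t h0 (by rw [d_lf]; exact h1)

/-- the same in the tree of `φ` -/
noncomputable def QT (g : FreeGroup (Fin N)) (t : ℝ) (h0 : 0 ≤ t) (h1 : t ≤ wl w (φ g)) :
    (lf hw φ).tree.T :=
  (lf hw φ).hyp.P 1 g t h0 (by rw [d_lf]; exact h1)

theorem dist_Q (k l : FreeGroup (Fin M)) {t s : ℝ} (h0 : 0 ≤ t) (h1 : t ≤ wl w k) (h2 : 0 ≤ s)
    (h3 : s ≤ wl w l) : dist (Q hw k t h0 h1) (Q hw l s h2 h3) =
      t + s - 2 * min (min t s) (cp w k.toWord l.toWord) := by
  unfold Q
  exact ((lf hw (MonoidHom.id _)).hyp.dist_P 1 k l _ _ _ _).trans (by rw [gp_lf]; rfl)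

theorem dist_QT (k l : FreeGroup (Fin N)) {t s : ℝ} (h0 : 0 ≤ t) (h1 : t ≤ wl w (φ k))
    (h2 : 0 ≤ s) (h3 : s ≤ wl w (φ l)) : dist (QT hw φ k t h0 h1) (QT hw φ l s h2 h3) =
      t + s - 2 * min (min t s) (cp w (φ k).toWord (φ l).toWord) := by
  unfold QT
  exact ((lf hw φ).hyp.dist_P 1 k l _ _ _ _).trans (by rw [gp_lf])

theorem V_eq (k : FreeGroup (Fin M)) : V hw k = Q hw k (wl w k) (wl_nonneg hw _) le_rfl := by
  unfold V Q
  rw [(lf hw (MonoidHom.id _)).hyp.v_eq 1 k]
  congr 1
  exact d_lf hw _ k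

theorem v_eq (g : FreeGroup (Fin N)) : g • (lf hw φ).base =
    QT hw φ g (wl w (φ g)) (wl_nonneg hw _) le_rfl := by
  rw [LenFn.smul_base]
  unfold QT
  rw [(lf hw φ).hyp.v_eq 1 g]
  congr 1
  exact d_lf hw _ g

theorem exists_QT (p : (lf hw φ).tree.T) : ∃ g t h0 h1, p = QT hw φ g t h0 h1 := by
  obtain ⟨g, t, h0, h1, h⟩ := (lf hw φ).hyp.exists_P 1 p
  exact ⟨g, t, h0, by rw [d_lf] at h1; exact h1, h⟩

/-- The embedding in the tree of the rose. -/
noncomputable def J (p : (lf hw φ).tree.T) : (X hw).T :=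
  Q hw (φ (exists_QT hw φ p).choose) (exists_QT hw φ p).choose_spec.choose
    (exists_QT hw φ p).choose_spec.choose_spec.choose
    (exists_QT hw φ p).choose_spec.choose_spec.choose_spec.choose

theorem J_QT (g : FreeGroup (Fin N)) {t : ℝ} (h0 : 0 ≤ t) (h1 : t ≤ wl w (φ g)) :
    J hw φ (QT hw φ g t h0 h1) = Q hw (φ g) t h0 h1 := by
  have h := (exists_QT hw φ (QT hw φ g t h0 h1)).choose_spec.choose_spec.choose_spec.choose_spec
  have h2 := dist_eq_zero.2 h
  rw [dist_QT] at h2
  rw [← dist_eq_zero]
  unfold J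
  rw [dist_comm, dist_Q]
  exact h2

theorem dist_J (p q : (lf hw φ).tree.T) : dist (J hw φ p) (J hw φ q) = dist p q := by
  obtain ⟨g, t, h0, h1, rfl⟩ := exists_QT hw φ p
  obtain ⟨h, s, h2, h3, rfl⟩ := exists_QT hw φ q
  rw [J_QT, J_QT, dist_Q, dist_QT]

theorem J_base (g : FreeGroup (Fin N)) : J hw φ (g • (lf hw φ).base) = V hw (φ g) := by
  rw [v_eq, J_QT, V_eq]

/-- Points of a segment are determined by the distance from an end. -/
theorem between_unique {T : Type} [MetricSpace T] (hT : IsRTree T) {a b p q : T}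
    (h1 : Between a p b) (h2 : Between a q b) (h3 : dist a p = dist a q) : p = q := by
  have h := hT.zeroHyperbolic p q a b
  unfold Between at h1 h2
  have e1 : dist p a + dist q b = dist a b := by rw [dist_comm p a, h3, h2]
  have e2 : dist p b + dist q a = dist a b := by rw [dist_comm q a, ← h3, add_comm, h1]
  rw [e1, e2, max_self] at h
  have := dist_nonneg (x := p) (y := q)
  exact dist_eq_zero.1 (by linarith)

theorem J_smul (g : FreeGroup (Fin N)) (p : (lf hw φ).tree.T) :
    J hw φ (g • p) = φ g • J hw φ p := by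
  obtain ⟨a, b, hab⟩ := (lf hw φ).span p
  have i1 := (lf hw φ).tree.isometric g
  have i2 := (X hw).isometric (φ g)
  have e : ∀ z : FreeGroup (Fin N), V hw (φ (g * z)) = φ g • J hw φ (z • (lf hw φ).base) := by
    intro z
    rw [J_base, V_smul, _root_.map_mul]
  have f : ∀ z : FreeGroup (Fin N), V hw (φ (g * z)) =
      J hw φ (g • (z • (lf hw φ).base)) := by
    intro z
    rw [← mul_smul, J_base]
  apply between_unique (X hw).isRTree (a := V hw (φ (g * a))) (b := V hw (φ (g * b)))
  · unfold Between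
    rw [f, f, dist_J, dist_J, dist_J, i1, i1, i1]
    exact hab
  · unfold Between
    rw [e, e, i2, i2, i2, dist_J, dist_J, dist_J]
    exact hab
  · conv_lhs => rw [f]
    conv_rhs => rw [e]
    rw [i2, dist_J, dist_J, i1]

/-! ### Words -/

theorem cp_prefix (u v : List (Fin M × Bool)) : cp w (u ++ v) u = W w u := by
  induction u with
  | nil => cases v <;> simp [cp, W]
  | cons x u ih =>
    rw [List.cons_append, W_cons]
    simp only [cp, if_true]
    rw [ih]

theorem dist_Q_V {k : FreeGroup (Fin M)} {u v : List (Fin M × Bool)} (hk : k.toWord = u ++ v)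
    {t : ℝ} (h0 : 0 ≤ t) (h1 : t ≤ wl w k) :
    dist (Q hw k t h0 h1) (V hw (FreeGroup.mk u)) = |t - W w u| := by
  have hr : FreeGroup.IsReduced u := by
    have := FreeGroup.isReduced_toWord (x := k)
    rw [hk] at this
    exact (List.isChain_append.1 this).1
  have hu : (FreeGroup.mk u).toWord = u := by
    rw [FreeGroup.toWord_mk, hr.reduce_eq]
  rw [V_eq, dist_Q, hk, hu, cp_prefix]
  have e : wl w (FreeGroup.mk u) = W w u := by unfold wl; rw [hu]
  rw [e]
  rcases le_total t (W w u) with h | h
  · rw [min_eq_left h, min_eq_left h, abs_sub_comm, abs_of_nonneg (by linarith)]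
    ring
  · rw [min_eq_right h, min_self, abs_of_nonneg (by linarith)]
    ring

theorem word_step (k : FreeGroup (Fin M)) (j : Fin M) :
    ((k * of j).toWord = k.toWord ++ [(j, true)]) ∨
      (k.toWord = (k * of j).toWord ++ [(j, false)]) := by
  have hk := FreeGroup.isReduced_toWord (x := k)
  rcases List.eq_nil_or_concat k.toWord with h | ⟨u, y, h⟩
  · left
    have h1 : k = 1 := FreeGroup.toWord_eq_nil_iff.mp h
    subst h1
    rw [one_mul, h]
    rfl
  · rw [List.concat_eq_append] at h
    by_cases hy : y = (j, false)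
    · right
      subst hy
      have hr : FreeGroup.IsReduced u := by
        rw [h] at hk
        exact (List.isChain_append.1 hk).1
      have e1 : k = FreeGroup.mk u * (of j)⁻¹ := by
        rw [← FreeGroup.mk_toWord (x := k), h, ← FreeGroup.mul_mk]
        rfl
      have e2 : k * of j = FreeGroup.mk u := by rw [e1]; group
      rw [e2, h, FreeGroup.toWord_mk, hr.reduce_eq]
    · left
      have hr : FreeGroup.IsReduced (k.toWord ++ [(j, true)]) := by
        unfold FreeGroup.IsReduced at *
        rw [List.isChain_append]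
        refine ⟨hk, List.isChain_singleton _, ?_⟩
        intro a ha b hb
        rw [h] at ha
        simp at ha hb
        subst ha; subst hb
        intro h1
        by_contra h2
        apply hy
        refine Prod.ext h1 ?_
        simpa using h2
      have e1 : k * of j = FreeGroup.mk (k.toWord ++ [(j, true)]) := by
        rw [← FreeGroup.mul_mk, FreeGroup.mk_toWord]
        rfl
      rw [e1, FreeGroup.toWord_mk, hr.reduce_eq]

/-- distance of a point of an edge at the base point from the vertices -/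
theorem dist_edge {i : Fin M} {P : (X hw).T} (h : dist (V hw 1) P + dist P (V hw (of i)) = w i)
    (z : FreeGroup (Fin M)) :
    (z.toWord.head? = some (i, true) → dist P (V hw z) = wl w z - dist (V hw 1) P) ∧
    (z.toWord.head? ≠ some (i, true) → dist P (V hw z) = wl w z + dist (V hw 1) P) := by
  set s := dist (V hw 1) P with hs
  have h1 : dist (V hw 1) (V hw z) = wl w z := by rw [dist_V, inv_one, one_mul]
  have h2 : dist (V hw (of i)) (V hw z) =
      w i + wl w z - 2 * cp w [(i, true)] z.toWord := by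
    rw [dist_V]
    have := wl_inv_mul (w := w) [(i, true)] z.toWord FreeGroup.IsReduced.singleton
      FreeGroup.isReduced_toWord
    rw [FreeGroup.mk_toWord] at this
    change wl w ((FreeGroup.mk [(i, true)])⁻¹ * z) = _
    rw [this]
    simp [wl, W]
  have t1 := dist_triangle P (V hw 1) (V hw z)
  have t2 := dist_triangle P (V hw (of i)) (V hw z)
  have t3 := dist_triangle (V hw 1) P (V hw z)
  have t4 := dist_triangle (V hw (of i)) P (V hw z)
  rw [dist_comm P (V hw 1), ← hs, h1] at t1
  rw [h2] at t2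
  rw [← hs, h1] at t3
  rw [dist_comm (V hw (of i)) P, h2] at t4
  constructor
  · intro hz
    have e : cp w [(i, true)] z.toWord = w i := by
      cases hzw : z.toWord with
      | nil => rw [hzw] at hz; simp at hz
      | cons a l =>
        rw [hzw] at hz
        simp at hz
        subst hz
        cases l <;> simp [cp]
    rw [e] at t2 t4
    apply le_antisymm <;> linarith
  · intro hz
    have e : cp w [(i, true)] z.toWord = 0 := by
      cases hzw : z.toWord with
      | nil => simp [cp]
      | cons a l =>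
        rw [hzw] at hz
        simp at hz
        unfold cp
        rw [if_neg (fun h => hz h.symm)]
    rw [e] at t2 t4
    apply le_antisymm <;> linarith

/-- The open edges of the tree of the rose are disjoint. -/
theorem edge_one (hpos : ∀ i, 0 < w i) {i j : Fin M} {P : (X hw).T} {k : FreeGroup (Fin M)}
    (h : dist (V hw 1) P + dist P (V hw (of i)) = w i) (h1 : 0 < dist (V hw 1) P)
    (h2 : 0 < dist P (V hw (of i)))
    (h3 : dist (V hw k) P + dist P (V hw (k * of j)) = w j) : k = 1 ∧ j = i := by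
  have key : ∀ (a b : FreeGroup (Fin M)) (y : Fin M × Bool), b.toWord = a.toWord ++ [y] →
      dist P (V hw a) + dist P (V hw b) = w y.1 → a = 1 ∧ y = (i, true) := by
    intro a b y hab hd
    obtain ⟨a1, a2⟩ := dist_edge hw h a
    obtain ⟨b1, b2⟩ := dist_edge hw h b
    have hb : wl w b = wl w a + w y.1 := by
      unfold wl
      rw [hab, W_append]
      simp [W]
    cases ha : a.toWord with
    | nil =>
      have ha1 : a = 1 := FreeGroup.toWord_eq_nil_iff.mp ha
      refine ⟨ha1, ?_⟩
      have e0 : wl w a = 0 := by unfold wl; rw [ha]; rfl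
      rw [a2 (by rw [ha]; simp), e0] at hd
      by_contra hy
      rw [b2 (by rw [hab, ha]; simpa using hy), hb, e0] at hd
      linarith
    | cons c l =>
      exfalso
      have e0 : w c.1 ≤ wl w a := by
        unfold wl; rw [ha, W_cons]
        have := W_nonneg hw l
        linarith
      by_cases hc : c = (i, true)
      · subst hc
        rw [a1 (by rw [ha]; simp), b1 (by rw [hab, ha]; simp), hb] at hd
        simp only at e0
        linarith
      · rw [a2 (by rw [ha]; simpa using hc), b2 (by rw [hab, ha]; simpa using hc), hb] at hd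
        have := hpos c.1
        linarith
  rcases word_step k j with h4 | h4
  · obtain ⟨h5, h6⟩ := key k (k * of j) (j, true) h4 (by rw [dist_comm P (V hw k)]; exact h3)
    exact ⟨h5, by simpa using h6⟩
  · obtain ⟨h5, h6⟩ := key (k * of j) k (j, false) h4 (by
      rw [dist_comm P (V hw k), add_comm]; exact h3)
    simp at h6

theorem edge_unique (hpos : ∀ i, 0 < w i) {i j : Fin M} {P : (X hw).T}
    {k k' : FreeGroup (Fin M)}
    (h : dist (V hw k) P + dist P (V hw (k * of i)) = w i) (h1 : 0 < dist (V hw k) P)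
    (h2 : 0 < dist P (V hw (k * of i)))
    (h3 : dist (V hw k') P + dist P (V hw (k' * of j)) = w j) : k' = k ∧ j = i := by
  have i2 := (X hw).isometric k⁻¹
  have e1 : ∀ z, dist (V hw z) P = dist (V hw (k⁻¹ * z)) (k⁻¹ • P) := by
    intro z
    rw [← V_smul, i2]
  have e2 : ∀ z, dist P (V hw z) = dist (k⁻¹ • P) (V hw (k⁻¹ * z)) := by
    intro z
    rw [← V_smul, i2]
  rw [e1, e2, inv_mul_cancel, inv_mul_cancel_left] at h
  rw [e1, inv_mul_cancel] at h1
  rw [e2, inv_mul_cancel_left] at h2
  rw [e1, e2, ← mul_assoc] at h3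
  obtain ⟨h4, h5⟩ := edge_one hw hpos h h1 h2 h3
  exact ⟨(inv_mul_eq_one.1 h4).symm, h5⟩

theorem exists_letter (L : List (Fin M × Bool)) (hL : L ≠ []) {t : ℝ} (h0 : 0 ≤ t)
    (h1 : t ≤ W w L) : ∃ u y v, L = u ++ y :: v ∧ W w u ≤ t ∧ t ≤ W w u + w y.1 := by
  induction L generalizing t with
  | nil => exact absurd rfl hL
  | cons y L ih =>
    rw [W_cons] at h1
    rcases le_total t (w y.1) with h | h
    · exact ⟨[], y, L, rfl, h0, by rw [W_nil]; linarith⟩
    · by_cases hL' : L = []
      · subst hL'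
        rw [W_nil] at h1
        exact ⟨[], y, [], rfl, h0, by rw [W_nil]; linarith⟩
      · obtain ⟨u, z, v, e, h2, h3⟩ := ih hL' (t := t - w y.1) (by linarith) (by linarith)
        refine ⟨y :: u, z, v, by rw [e]; rfl, ?_, ?_⟩
        · rw [W_cons]; linarith
        · rw [W_cons]; linarith

/-- the letters of the word `L` lie over the edges `κ i` -/
def Good (κ : Fin M → FreeGroup (Fin M)) (L : List (Fin M × Bool)) : Prop :=
  ∀ (u : List (Fin M × Bool)) (i : Fin M) (b : Bool) (v : List (Fin M × Bool)),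
    L = u ++ (i, b) :: v → ∃ h : FreeGroup (Fin N),
      FreeGroup.mk (if b then u else u ++ [(i, b)]) = φ h * κ i

theorem covolume (hpos : ∀ i, 0 < w i) (hinj : ∀ g, φ g = 1 → g = 1) (hM : 0 < M)
    (κ : Fin M → FreeGroup (Fin M)) (g0 : Fin M → FreeGroup (Fin N))
    (h0 : ∀ i, ∃ v, (φ (g0 i)).toWord = (κ i).toWord ++ (i, true) :: v)
    (hg : ∀ g, Good φ κ (φ g).toWord) :
    HasCovolume (lf hw φ).tree (∑ i, w i) := by
  have n1 : ∀ i, 0 ≤ W w (κ i).toWord := fun i => W_nonneg hw _
  have n2 : ∀ i, W w (κ i).toWord + w i ≤ wl w (φ (g0 i)) := by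
    intro i
    obtain ⟨v, hv⟩ := h0 i
    unfold wl
    rw [hv, W_append, W_cons]
    have := W_nonneg hw v
    simp only
    linarith
  set x : Fin M → (lf hw φ).tree.T := fun i => QT hw φ (g0 i) (W w (κ i).toWord) (n1 i)
    (by have := n2 i; have := hw i; linarith) with hx
  set y : Fin M → (lf hw φ).tree.T := fun i => QT hw φ (g0 i) (W w (κ i).toWord + w i)
    (by have := n1 i; have := hw i; linarith) (n2 i) with hy
  have Jx : ∀ i, J hw φ (x i) = V hw (κ i) := by
    intro i
    obtain ⟨v, hv⟩ := h0 i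
    rw [hx]
    simp only
    rw [J_QT, ← dist_eq_zero]
    have := dist_Q_V hw hv (t := W w (κ i).toWord) (n1 i)
      (by have := n2 i; have := hw i; linarith)
    rw [FreeGroup.mk_toWord] at this
    rw [this, sub_self, abs_zero]
  have Jy : ∀ i, J hw φ (y i) = V hw (κ i * of i) := by
    intro i
    obtain ⟨v, hv⟩ := h0 i
    rw [hy]
    simp only
    rw [J_QT, ← dist_eq_zero]
    have hv' : (φ (g0 i)).toWord = ((κ i).toWord ++ [(i, true)]) ++ v := by
      rw [hv]; simp
    have := dist_Q_V hw hv' (t := W w (κ i).toWord + w i)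
      (by have := n1 i; have := hw i; linarith) (n2 i)
    rw [← FreeGroup.mul_mk, FreeGroup.mk_toWord] at this
    change dist _ (V hw (κ i * FreeGroup.mk [(i, true)])) = 0
    rw [this, W_append]
    simp [W]
  have dxy : ∀ i, dist (x i) (y i) = w i := by
    intro i
    rw [← dist_J, Jx, Jy, dist_V]
    have : (κ i)⁻¹ * (κ i * of i) = of i := by group
    rw [this]
    simp [wl, W]
  refine ⟨M, x, y, ?_, ?_, ?_, ?_⟩
  · intro i h
    have := dxy i
    rw [h, dist_self] at this
    exact (hpos i).ne this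
  · -- covering
    have main : ∀ (g : FreeGroup (Fin N)) (t : ℝ) (h1 : 0 ≤ t) (h2 : t ≤ wl w (φ g)),
        (φ g).toWord ≠ [] → ∃ (h : FreeGroup (Fin N)) (i : Fin M),
          Between (h • x i) (QT hw φ g t h1 h2) (h • y i) := by
      intro g t h1 h2 hne
      obtain ⟨u, ⟨i, b⟩, v, e, h3, h4⟩ := exists_letter _ hne h1 h2
      simp only at h4
      have e' : (φ g).toWord = (u ++ [(i, b)]) ++ v := by rw [e]; simp
      have d1 := dist_Q_V hw e h1 h2
      have d2 := dist_Q_V hw e' h1 h2
      rw [W_append, W_cons, W_nil, add_zero] at d2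
      rw [abs_of_nonneg (by linarith)] at d1
      simp only at d2
      rw [abs_sub_comm, abs_of_nonneg (by linarith)] at d2
      obtain ⟨h, hh⟩ := hg g u i b v e
      refine ⟨h, i, ?_⟩
      unfold Between
      have i1 := (lf hw φ).tree.isometric h
      rw [i1, dxy]
      rw [← dist_J hw φ (h • x i), ← dist_J hw φ _ (h • y i), J_smul, J_smul, Jx, Jy, V_smul,
        V_smul, ← mul_assoc, ← hh, J_QT]
      cases b
      · simp only [Bool.false_eq_true, if_false] at hh ⊢
        have e2 : FreeGroup.mk (u ++ [(i, false)]) * of i = FreeGroup.mk u := by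
          rw [← FreeGroup.mul_mk]
          have : FreeGroup.mk [(i, false)] = (of i)⁻¹ := rfl
          rw [this]; group
        rw [e2, dist_comm, d1, d2]
        ring
      · simp only [if_true] at hh ⊢
        have e2 : FreeGroup.mk u * of i = FreeGroup.mk (u ++ [(i, true)]) := by
          rw [← FreeGroup.mul_mk]
          rfl
        rw [e2, dist_comm, d1, d2]
        ring
    intro p
    obtain ⟨g, t, h1, h2, rfl⟩ := exists_QT hw φ p
    by_cases hne : (φ g).toWord = []
    · have ht : t = 0 := by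
        unfold wl at h2
        rw [hne, W_nil] at h2
        exact le_antisymm h2 h1
      subst ht
      obtain ⟨v, hv⟩ := h0 ⟨0, hM⟩
      have hne' : (φ (g0 ⟨0, hM⟩)).toWord ≠ [] := by rw [hv]; simp
      obtain ⟨h, i, h3⟩ := main (g0 ⟨0, hM⟩) 0 le_rfl (wl_nonneg hw _) hne'
      refine ⟨h, i, ?_⟩
      have e : QT hw φ g 0 h1 h2 = QT hw φ (g0 ⟨0, hM⟩) 0 le_rfl (wl_nonneg hw _) := by
        rw [← dist_eq_zero, dist_QT, hne]
        simp [cp]
      rw [e]
      exact h3
    · exact main g t h1 h2 hne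
  · intro i j g p h1 h2 h3 h4
    unfold Between at h1 h4
    rw [(lf hw φ).tree.isometric, dxy] at h4
    rw [dxy] at h1
    have p1 : 0 < dist (x i) p := dist_pos.2 (Ne.symm h2)
    have p2 : 0 < dist p (y i) := dist_pos.2 h3
    rw [← dist_J hw φ (x i), ← dist_J hw φ _ (y i), Jx, Jy] at h1
    rw [← dist_J hw φ, Jx] at p1
    rw [← dist_J hw φ, Jy] at p2
    rw [← dist_J hw φ (g • x j), ← dist_J hw φ _ (g • y j), J_smul, J_smul, Jx, Jy, V_smul,
      V_smul, ← mul_assoc] at h4
    obtain ⟨h5, h6⟩ := edge_unique hw hpos h1 p1 p2 h4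
    subst h6
    refine ⟨hinj g ?_, rfl⟩
    exact mul_eq_right.1 h5
  · exact Finset.sum_congr rfl fun i _ => (dxy i).symm

end Pool.Agent.X72.CV
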