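import Mathlib
import Pool.Agent.H528.MCG.Nielsen

set_option autoImplicit false

/-!
# Primitive elements of the free group of rank two become positive under a transvection
-/

namespace Pool.Agent.X72.CV

open FreeGroup

/-- the free group of rank two -/
abbrev F2 : Type := FreeGroup (Fin 2)

/-- the swap -/
def Sw : F2 →* F2 := FreeGroup.lift ![of 1, of 0]

/-- `a ↦ a`, `b ↦ a b` -/
def Tw : F2 →* F2 := FreeGroup.lift ![of 0, of 0 * of 1]

@[simp] theorem Sw_0 : Sw (of 0) = of 1 := by simp [Sw]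
@[simp] theorem Sw_1 : Sw (of 1) = of 0 := by simp [Sw]
@[simp] theorem Tw_0 : Tw (of 0) = of 0 := by simp [Tw]
@[simp] theorem Tw_1 : Tw (of 1) = of 0 * of 1 := by simp [Tw]

theorem hom_ext2 {f g : F2 →* F2} (h0 : f (of 0) = g (of 0)) (h1 : f (of 1) = g (of 1)) :
    f = g := by
  apply FreeGroup.ext_hom
  intro i
  fin_cases i
  · exact h0
  · exact h1

theorem Sw_Sw : Sw.comp Sw = MonoidHom.id F2 := by
  apply hom_ext2 <;> simp

/-- products of swaps and transvections, with the number of transvections -/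
inductive PM : ℕ → (F2 →* F2) → Prop
  | one : PM 0 (MonoidHom.id F2)
  | swap {k : ℕ} {π : F2 →* F2} : PM k π → PM k (π.comp Sw)
  | tw {k : ℕ} {π : F2 →* F2} : PM k π → PM (k + 1) (π.comp Tw)

theorem PM.split {k : ℕ} {π : F2 →* F2} (h : PM (k + 1) π) :
    ∃ π0, PM k π0 ∧ (π = π0.comp Tw ∨ π = (π0.comp Tw).comp Sw) := by
  generalize hn : k + 1 = n at h
  induction h with
  | one => omega
  | swap h ih =>
    obtain ⟨π0, h0, h1 | h1⟩ := ih hn
    · exact ⟨π0, h0, Or.inr (by rw [h1])⟩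
    · refine ⟨π0, h0, Or.inl ?_⟩
      rw [h1, MonoidHom.comp_assoc, Sw_Sw, MonoidHom.comp_id]
  | @tw m ρ h ih =>
    obtain rfl : k = m := by omega
    exact ⟨ρ, h, Or.inl rfl⟩

/-- `z` or its inverse -/
def sg (b : Bool) (z : F2) : F2 := if b then z else z⁻¹

/-- the pair is conjugate to the images of the generators, up to signs -/
def R (k : ℕ) (x y : F2) : Prop :=
  ∃ (m : ℕ) (π : F2 →* F2) (c : F2) (e d : Bool), k ≤ m ∧ PM m π ∧
    x = c * sg e (π (of 0)) * c⁻¹ ∧ y = c * sg d (π (of 1)) * c⁻¹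

theorem R.mono {k l : ℕ} {x y : F2} (h : R k x y) (hl : l ≤ k) : R l x y := by
  obtain ⟨m, π, c, e, d, h1, h2⟩ := h
  exact ⟨m, π, c, e, d, hl.trans h1, h2⟩

theorem R.swap {k : ℕ} {x y : F2} (h : R k x y) : R k y x := by
  obtain ⟨m, π, c, e, d, h1, h2, h3, h4⟩ := h
  refine ⟨m, π.comp Sw, c, d, e, h1, h2.swap, ?_, ?_⟩
  · simpa using h4
  · simpa using h3

theorem R.inv {k : ℕ} {x y : F2} (h : R k x y) : R k x⁻¹ y := by
  obtain ⟨m, π, c, e, d, h1, h2, h3, h4⟩ := h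
  refine ⟨m, π, c, !e, d, h1, h2, ?_, h4⟩
  rw [h3]
  cases e <;> simp [sg, mul_assoc]

theorem R.conj {k : ℕ} {x y : F2} (h : R k x y) (g : F2) : R k (g * x * g⁻¹) (g * y * g⁻¹) := by
  obtain ⟨m, π, c, e, d, h1, h2, h3, h4⟩ := h
  refine ⟨m, π, g * c, e, d, h1, h2, ?_, ?_⟩
  · rw [h3]; group
  · rw [h4]; group

theorem R.mul {k : ℕ} {x y : F2} (h : R (k + 1) x y) : R k (x * y) y := by
  obtain ⟨m, π, c, e, d, h1, h2, h3, h4⟩ := h
  obtain ⟨m, rfl⟩ : ∃ n, m = n + 1 := ⟨m - 1, by omega⟩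
  obtain ⟨π0, h0, hs⟩ := h2.split
  cases e <;> cases d
  · -- both negative
    refine ⟨m + 2, ((π.comp Sw).comp Tw).comp Sw, c, false, false, by omega,
      (h2.swap.tw).swap, ?_, ?_⟩
    · rw [h3, h4]; simp [sg, mul_assoc]
    · rw [h4]; simp [sg]
  · -- negative, positive
    rcases hs with rfl | rfl
    · refine ⟨m + 1, (π0.comp Sw).comp Tw, c * (π0 (of 1))⁻¹, true, true, by omega,
        h0.swap.tw, ?_, ?_⟩
      · rw [h3, h4]; simp [sg, mul_assoc]
      · rw [h4]; simp [sg, mul_assoc]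
    · refine ⟨m, π0.comp Sw, c, false, true, by omega, h0.swap, ?_, ?_⟩
      · rw [h3, h4]; simp [sg, mul_assoc]
      · rw [h4]; simp [sg, mul_assoc]
  · -- positive, negative
    rcases hs with rfl | rfl
    · refine ⟨m + 1, (π0.comp Sw).comp Tw, c * π0 (of 0), false, false, by omega,
        h0.swap.tw, ?_, ?_⟩
      · rw [h3, h4]; simp [sg, mul_assoc]
      · rw [h4]; simp [sg, mul_assoc]
    · refine ⟨m, π0.comp Sw, c * π0 (of 0), true, false, by omega, h0.swap, ?_, ?_⟩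
      · rw [h3, h4]; simp [sg, mul_assoc]
      · rw [h4]; simp [sg, mul_assoc]
  · -- both positive
    refine ⟨m + 2, ((π.comp Sw).comp Tw).comp Sw, c * (π (of 1))⁻¹, true, true, by omega,
      (h2.swap.tw).swap, ?_, ?_⟩
    · rw [h3, h4]; simp [sg, mul_assoc]
    · rw [h4]; simp [sg, mul_assoc]

/-- `φ` costs at most `K` transvections -/
def P (φ : MulAut F2) : Prop := ∃ K : ℕ, ∀ (k : ℕ) (ψ : F2 →* F2), R (k + K) (ψ (of 0)) (ψ (of 1)) →
  R k (ψ (φ (of 0))) (ψ (φ (of 1)))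

theorem P.mul {φ χ : MulAut F2} (h : P φ) (h' : P χ) : P (φ * χ) := by
  obtain ⟨K, hK⟩ := h
  obtain ⟨L, hL⟩ := h'
  refine ⟨L + K, fun k ψ hr => ?_⟩
  have h1 := hK (k + L) ψ (by rw [add_assoc]; exact hr)
  have h2 := hL k (ψ.comp φ.toMonoidHom) (by simpa using h1)
  simpa using h2

/-- the swap as an automorphism -/
def sA : MulAut F2 where
  toFun := Sw
  invFun := Sw
  left_inv x := DFunLike.congr_fun Sw_Sw x
  right_inv x := DFunLike.congr_fun Sw_Sw x
  map_mul' := Sw.map_mul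

def Iv : F2 →* F2 := FreeGroup.lift ![(of 0)⁻¹, of 1]

theorem Iv_Iv : Iv.comp Iv = MonoidHom.id F2 := by
  apply hom_ext2 <;> simp [Iv]

/-- the inversion of the first generator -/
def iA : MulAut F2 where
  toFun := Iv
  invFun := Iv
  left_inv x := DFunLike.congr_fun Iv_Iv x
  right_inv x := DFunLike.congr_fun Iv_Iv x
  map_mul' := Iv.map_mul

def Mu : F2 →* F2 := FreeGroup.lift ![of 0 * of 1, of 1]
def Mu' : F2 →* F2 := FreeGroup.lift ![of 0 * (of 1)⁻¹, of 1]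

theorem Mu_Mu' : Mu.comp Mu' = MonoidHom.id F2 := by
  apply hom_ext2 <;> simp [Mu, Mu']

theorem Mu'_Mu : Mu'.comp Mu = MonoidHom.id F2 := by
  apply hom_ext2 <;> simp [Mu, Mu']

/-- `a ↦ a b`, `b ↦ b` -/
def mA : MulAut F2 where
  toFun := Mu
  invFun := Mu'
  left_inv x := DFunLike.congr_fun Mu'_Mu x
  right_inv x := DFunLike.congr_fun Mu_Mu' x
  map_mul' := Mu.map_mul

theorem sA_0 : sA (of 0) = of 1 := Sw_0
theorem sA_1 : sA (of 1) = of 0 := Sw_1
theorem iA_0 : iA (of 0) = (of 0)⁻¹ := (by simp [Iv] : Iv (of 0) = (of 0)⁻¹)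
theorem iA_1 : iA (of 1) = of 1 := (by simp [Iv] : Iv (of 1) = of 1)
theorem mA_0 : mA (of 0) = of 0 * of 1 := (by simp [Mu] : Mu (of 0) = of 0 * of 1)
theorem mA_1 : mA (of 1) = of 1 := (by simp [Mu] : Mu (of 1) = of 1)

theorem aut_ext2 {f g : MulAut F2} (h0 : f (of 0) = g (of 0)) (h1 : f (of 1) = g (of 1)) :
    f = g := by
  have := hom_ext2 (f := f.toMonoidHom) (g := g.toMonoidHom) h0 h1
  exact MulEquiv.toMonoidHom_injective this

theorem P_s : P sA := ⟨0, fun k ψ h => by rw [sA_0, sA_1]; exact h.swap⟩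
theorem P_i : P iA := ⟨0, fun k ψ h => by rw [iA_0, iA_1, _root_.map_inv]; exact h.inv⟩
theorem P_m : P mA := ⟨1, fun k ψ h => by rw [mA_0, mA_1, _root_.map_mul]; exact h.mul⟩
theorem P_c (g : F2) : P (MulAut.conj g) := ⟨0, fun k ψ h => by
  rw [MulAut.conj_apply, MulAut.conj_apply, _root_.map_mul, _root_.map_mul, _root_.map_mul,
    _root_.map_mul, _root_.map_inv]
  exact h.conj _⟩

theorem P_one : P 1 := ⟨0, fun k ψ h => by simpa using h⟩

/-- all automorphisms -/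
def N : Subgroup (MulAut F2) where
  carrier := {φ | P φ ∧ P φ⁻¹}
  one_mem' := ⟨P_one, by rw [inv_one]; exact P_one⟩
  mul_mem' {a b} ha hb := ⟨ha.1.mul hb.1, by rw [mul_inv_rev]; exact hb.2.mul ha.2⟩
  inv_mem' {a} ha := ⟨ha.2, by rw [inv_inv]; exact ha.1⟩

theorem all_P (φ : MulAut F2) : P φ := by
  have hs : sA⁻¹ = sA := by
    rw [inv_eq_iff_mul_eq_one]
    exact MulEquiv.ext fun x => DFunLike.congr_fun Sw_Sw x
  have hi : iA⁻¹ = iA := by
    rw [inv_eq_iff_mul_eq_one]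
    exact MulEquiv.ext fun x => DFunLike.congr_fun Iv_Iv x
  have hm : mA⁻¹ = sA * iA * sA * mA * (sA * iA * sA) := by
    rw [inv_eq_iff_mul_eq_one]
    apply aut_ext2
    · simp [MulAut.mul_apply, sA_0, sA_1, iA_0, iA_1, mA_0, mA_1]
    · simp [MulAut.mul_apply, sA_0, sA_1, iA_0, iA_1, mA_0, mA_1]
  have h := Pool.Agent.H528.Nielsen.nielsen N (σ := sA) (ε := iA) (μ := mA)
    ⟨P_s, by rw [hs]; exact P_s⟩ ⟨P_i, by rw [hi]; exact P_i⟩
    ⟨P_m, by rw [hm]; exact (((P_s.mul P_i).mul P_s).mul P_m).mul ((P_s.mul P_i).mul P_s)⟩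
    (fun g => ⟨P_c g, by rw [← _root_.map_inv]; exact P_c _⟩) sA_0 sA_1 iA_0 iA_1 mA_0 mA_1
  have : φ ∈ N := by rw [h]; exact Subgroup.mem_top _
  exact this.1

/-- a positive word -/
def pw (v : List (Fin 2)) : F2 := (v.map of).prod

theorem PM.pos {k : ℕ} {π : F2 →* F2} (h : PM k π) :
    ∀ v : List (Fin 2), v ≠ [] → ∃ u : List (Fin 2), u ≠ [] ∧ π (pw v) = pw u := by
  have key : ∀ (f : Fin 2 → List (Fin 2)) (τ : F2 →* F2), (∀ i, f i ≠ []) →
      (∀ i, τ (of i) = pw (f i)) → ∀ v : List (Fin 2), v ≠ [] →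
      v.flatMap f ≠ [] ∧ τ (pw v) = pw (v.flatMap f) := by
    intro f τ hf hτ v hv
    constructor
    · obtain ⟨i, v, rfl⟩ := List.exists_cons_of_ne_nil hv
      rw [List.flatMap_cons]
      intro h
      exact hf i (List.append_eq_nil_iff.1 h).1
    · clear hv
      induction v with
      | nil => simp [pw]
      | cons i v ih =>
        have e1 : pw (i :: v) = of i * pw v := by simp [pw]
        have e2 : ∀ l m : List (Fin 2), pw (l ++ m) = pw l * pw m := by
          intro l m; simp [pw]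
        rw [e1, _root_.map_mul, ih, hτ, List.flatMap_cons, e2]
  induction h with
  | one => exact fun v hv => ⟨v, hv, rfl⟩
  | swap h ih =>
    intro v hv
    obtain ⟨h1, h2⟩ := key ![[1], [0]] Sw (by decide) (by
      intro i; fin_cases i <;> simp [pw]) v hv
    obtain ⟨u, hu, h3⟩ := ih _ h1
    exact ⟨u, hu, by rw [MonoidHom.comp_apply, h2, h3]⟩
  | tw h ih =>
    intro v hv
    obtain ⟨h1, h2⟩ := key ![[0], [0, 1]] Tw (by decide) (by
      intro i; fin_cases i <;> simp [pw]) v hv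
    obtain ⟨u, hu, h3⟩ := ih _ h1
    exact ⟨u, hu, by rw [MonoidHom.comp_apply, h2, h3]⟩

/-- the iterates of the transvection -/
def TwI : ℕ → (F2 →* F2)
  | 0 => MonoidHom.id F2
  | n + 1 => (TwI n).comp Tw

theorem PM_TwI (n : ℕ) : PM n (TwI n) := by
  induction n with
  | zero => exact PM.one
  | succ n ih => exact ih.tw

/-- the images of a primitive element under high iterates of the transvection are positive -/
theorem eventually_pos (φ : MulAut F2) (i : Fin 2) : ∃ K : ℕ, ∀ n : ℕ, K ≤ n →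
    ∃ (c : F2) (e : Bool) (v : List (Fin 2)), v ≠ [] ∧
      TwI n (φ (of i)) = c * sg e (pw v) * c⁻¹ := by
  obtain ⟨K, hK⟩ := all_P φ
  refine ⟨K, fun n hn => ?_⟩
  have h1 : R (0 + K) (TwI n (of 0)) (TwI n (of 1)) := by
    refine ⟨n, TwI n, 1, true, true, by omega, PM_TwI n, ?_, ?_⟩ <;> simp [sg]
  obtain ⟨m, π, c, e, d, -, h2, h3, h4⟩ := hK 0 (TwI n) h1
  fin_cases i
  · obtain ⟨u, hu, h5⟩ := h2.pos [0] (by simp)
    refine ⟨c, e, u, hu, ?_⟩
    rw [← h5]
    simpa [pw] using h3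
  · obtain ⟨u, hu, h5⟩ := h2.pos [1] (by simp)
    refine ⟨c, d, u, hu, ?_⟩
    rw [← h5]
    simpa [pw] using h4

end Pool.Agent.X72.CV
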