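import Mathlib
import Pool.Agent.X72.CV.Cov
import Pool.Agent.X72.CV.Pos

set_option autoImplicit false

/-!
# The theta graph and the barbell graph
-/

namespace Pool.Agent.X72.CV

open Pool.Agent.H472R3 FreeGroup

variable {N M : ℕ} {w : Fin M → ℝ} (hw : ∀ i, 0 ≤ w i)
  (φ : FreeGroup (Fin N) →* FreeGroup (Fin M))

theorem toWord_of_reduced {l : List (Fin M × Bool)} (h : FreeGroup.IsReduced l) :
    (FreeGroup.mk l).toWord = l := by
  rw [FreeGroup.toWord_mk, h.reduce_eq]

theorem reduced_left {l m : List (Fin M × Bool)} (h : FreeGroup.IsReduced (l ++ m)) :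
    FreeGroup.IsReduced l := (List.isChain_append.1 h).1

/-- translation lengths of elements with cyclically reduced image -/
theorem len_of {g : FreeGroup (Fin N)} {l : List (Fin M × Bool)}
    (hl : FreeGroup.IsReduced (l ++ l)) (h : φ g = FreeGroup.mk l) :
    (lf hw φ).tree.len g = W w l := by
  rw [LenFn.len_tree, lf_L, lf_L, _root_.map_mul, h, FreeGroup.mul_mk]
  unfold wl
  rw [toWord_of_reduced hl, toWord_of_reduced (reduced_left hl), W_append]
  rw [max_eq_right]
  · ring
  · have := W_nonneg hw l
    linarith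

theorem lf_inCV {ε : ℝ} (hε : 0 < ε) (hwε : ∀ i, ε ≤ w i) (hinj : ∀ g, φ g = 1 → g = 1)
    {h : FreeGroup (Fin N)} {l : List (Fin M × Bool)} (hl : FreeGroup.IsReduced (l ++ l))
    (hne : l ≠ []) (hh : φ h = FreeGroup.mk l) : (lf hw φ).tree.InCV := by
  have h1 : ∀ g, g ≠ 1 → ε ≤ (lf hw φ).L (g * g) - (lf hw φ).L g := by
    intro g hg
    change ε ≤ wl w (φ (g * g)) - wl w (φ g)
    rw [_root_.map_mul]
    exact wl_sq hε.le hwε _ (fun h => hg (hinj g h))
  have hw' : (φ h).toWord = l := by rw [hh, toWord_of_reduced (reduced_left hl)]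
  have hc : FreeGroup.IsCyclicallyReduced l := by
    have hl1 := reduced_left hl
    refine ⟨hl1, ?_⟩
    have := (List.isChain_append.1 hl).2.2
    exact this
  refine ⟨LenFn.free_tree _ fun g hg => ?_, LenFn.minimal_tree _ h ?_ ?_,
    LenFn.discrete_tree _ hε h1⟩
  · have := h1 g hg
    linarith
  · change 0 < wl w (φ h)
    unfold wl
    rw [hw']
    obtain ⟨a, l', rfl⟩ := List.exists_cons_of_ne_nil hne
    rw [W_cons]
    have := hwε a.1
    have := W_nonneg hw l'
    linarith
  · intro n
    change wl w (φ (h ^ n)) = n * wl w (φ h)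
    rw [_root_.map_pow]
    unfold wl
    have : (φ h ^ n).toWord = (List.replicate n (φ h).toWord).flatten := by
      rw [FreeGroup.toWord_pow, hw']
      exact (hc.flatten_replicate n).isReduced.reduce_eq
    rw [this]
    induction n with
    | zero => simp [W]
    | succ n ih =>
      rw [List.replicate_succ, List.flatten_cons, W_append]
      have := ih (by
        rw [FreeGroup.toWord_pow, hw']
        exact (hc.flatten_replicate n).isReduced.reduce_eq)
      rw [this]
      push_cast
      ring

theorem len_conj (A : FTree N) (c g : FreeGroup (Fin N)) : A.len (c * g * c⁻¹) = A.len g := by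
  unfold FTree.len
  rw [← (MulAction.toPerm c⁻¹ : Equiv.Perm A.T).iInf_comp (g := fun y => dist y (g • y))]
  refine iInf_congr fun x => ?_
  simp only [MulAction.toPerm_apply]
  rw [← A.isometric c (c⁻¹ • x), smul_inv_smul, ← mul_smul, ← mul_smul, mul_assoc]

theorem len_inv (A : FTree N) (g : FreeGroup (Fin N)) : A.len g⁻¹ = A.len g := by
  unfold FTree.len
  refine iInf_congr fun x => ?_
  rw [← A.isometric g, smul_inv_smul, dist_comm]

/-! ### Words over the edges -/

section good

variable {φ} {κ : Fin M → FreeGroup (Fin M)}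

theorem Good.append {L L' : List (Fin M × Bool)} (h : Good φ κ L) (h' : Good φ κ L')
    {g : FreeGroup (Fin N)} (hg : FreeGroup.mk L = φ g) : Good φ κ (L ++ L') := by
  intro u i b v huv
  rcases List.append_eq_append_iff.1 huv with ⟨a, ha, hb⟩ | ⟨a, ha, hb⟩
  · obtain ⟨k, hk⟩ := h' a i b v hb
    refine ⟨g * k, ?_⟩
    rw [_root_.map_mul, mul_assoc, ← hk, ← hg]
    cases b
    · simp only [Bool.false_eq_true, if_false]
      rw [FreeGroup.mul_mk, ha, List.append_assoc]
    · simp only [if_true]
      rw [FreeGroup.mul_mk, ha]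
  · cases a with
    | nil =>
      rw [List.append_nil] at ha
      rw [List.nil_append] at hb
      obtain ⟨k, hk⟩ := h' [] i b v (by rw [List.nil_append]; exact hb.symm)
      refine ⟨g * k, ?_⟩
      rw [_root_.map_mul, mul_assoc, ← hk, ← hg]
      cases b
      · simp only [Bool.false_eq_true, if_false]
        rw [FreeGroup.mul_mk, ha, List.nil_append]
      · simp only [if_true]
        rw [FreeGroup.mul_mk, ha, List.append_nil]
    | cons c a =>
      rw [List.cons_append, List.cons.injEq] at hb
      obtain ⟨rfl, -⟩ := hb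
      exact h u i b a ha

theorem Good.step {L L' : List (Fin M × Bool)} (h : Good φ κ L) (hs : FreeGroup.Red.Step L L') :
    Good φ κ L' := by
  cases hs with
  | @not A B x b =>
    intro u i c v huv
    rcases List.append_eq_append_iff.1 huv with ⟨a, ha, hb⟩ | ⟨a, ha, hb⟩
    · -- the letter is in `B`
      obtain ⟨k, hk⟩ := h (A ++ (x, b) :: (x, !b) :: a) i c v (by rw [hb]; simp)
      refine ⟨k, ?_⟩
      rw [← hk]
      cases c
      · simp only [Bool.false_eq_true, if_false]
        rw [ha, List.append_assoc, List.append_assoc]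
        exact (Quot.sound FreeGroup.Red.Step.not).symm
      · simp only [if_true]
        rw [ha]
        exact (Quot.sound FreeGroup.Red.Step.not).symm
    · cases a with
      | nil =>
        rw [List.append_nil] at ha
        rw [List.nil_append] at hb
        obtain ⟨k, hk⟩ := h (A ++ (x, b) :: (x, !b) :: []) i c v (by rw [← hb]; simp)
        refine ⟨k, ?_⟩
        rw [← hk]
        cases c
        · simp only [Bool.false_eq_true, if_false]
          rw [← ha, List.append_assoc]
          exact (Quot.sound FreeGroup.Red.Step.not).symm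
        · simp only [if_true]
          rw [← ha]
          have := (Quot.sound (FreeGroup.Red.Step.not (L₁ := A) (L₂ := []) (x := x) (b := b)))
          rw [List.append_nil] at this
          exact this.symm
      | cons d a =>
        rw [List.cons_append, List.cons.injEq] at hb
        obtain ⟨rfl, -⟩ := hb
        exact h u i c (a ++ (x, b) :: (x, !b) :: B) (by rw [ha]; simp)

theorem Good.reduce {L : List (Fin M × Bool)} (h : Good φ κ L) :
    Good φ κ (FreeGroup.reduce L) := by
  have hr : FreeGroup.Red L (FreeGroup.reduce L) := FreeGroup.reduce.red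
  have key : ∀ L', FreeGroup.Red L L' → Good φ κ L' := by
    intro L' hL
    induction hL with
    | refl => exact h
    | tail _ hs ih => exact ih.step hs
  exact key _ hr

theorem Good.invRev {L : List (Fin M × Bool)} (h : Good φ κ L) {g : FreeGroup (Fin N)}
    (hg : FreeGroup.mk L = φ g) : Good φ κ (FreeGroup.invRev L) := by
  intro u i b v huv
  have e : L = FreeGroup.invRev v ++ (i, !b) :: FreeGroup.invRev u := by
    have := congrArg FreeGroup.invRev huv
    rw [FreeGroup.invRev_invRev] at this
    rw [this]
    simp [FreeGroup.invRev]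
  obtain ⟨k, hk⟩ := h _ _ _ _ e
  refine ⟨g⁻¹ * k, ?_⟩
  rw [_root_.map_mul, _root_.map_inv, ← hg, mul_assoc, ← hk, FreeGroup.inv_mk, huv]
  cases b
  · simp only [Bool.false_eq_true, if_false, Bool.not_false, if_true]
    have e2 : FreeGroup.mk (u ++ (i, false) :: v) * FreeGroup.mk (FreeGroup.invRev v) =
        FreeGroup.mk (u ++ [(i, false)]) := by
      have : u ++ (i, false) :: v = (u ++ [(i, false)]) ++ v := by simp
      rw [this, ← FreeGroup.mul_mk, ← FreeGroup.inv_mk, mul_assoc, mul_inv_cancel, mul_one]
    rw [e2]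
  · simp only [if_true, Bool.not_true, Bool.false_eq_true, if_false]
    have e2 : FreeGroup.mk (u ++ (i, true) :: v) *
        FreeGroup.mk (FreeGroup.invRev v ++ [(i, false)]) = FreeGroup.mk u := by
      have h1 : u ++ (i, true) :: v = u ++ ((i, true) :: v) := rfl
      have h2 : FreeGroup.invRev v ++ [(i, false)] = FreeGroup.invRev ((i, true) :: v) := by
        simp [FreeGroup.invRev]
      rw [h2, ← FreeGroup.mul_mk, ← FreeGroup.inv_mk, mul_assoc, mul_inv_cancel, mul_one]
    rw [e2]

theorem good_all (G : Fin N → List (Fin M × Bool)) (hG : ∀ i, Good φ κ (G i))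
    (hG' : ∀ i, FreeGroup.mk (G i) = φ (of i)) (g : FreeGroup (Fin N)) :
    Good φ κ (φ g).toWord := by
  have key : ∃ L, Good φ κ L ∧ FreeGroup.mk L = φ g := by
    induction g using FreeGroup.induction_on with
    | C1 =>
      refine ⟨[], ?_, by rw [_root_.map_one]; rfl⟩
      intro u i b v h
      simp at h
    | of i => exact ⟨G i, hG i, hG' i⟩
    | inv_of i ih =>
      exact ⟨FreeGroup.invRev (G i), (hG i).invRev (hG' i), by
        rw [← FreeGroup.inv_mk, _root_.map_inv, hG' i]⟩
    | mul x y hx hy =>
      obtain ⟨L, h1, h2⟩ := hx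
      obtain ⟨L', h3, h4⟩ := hy
      exact ⟨L ++ L', h1.append h3 h2, by rw [← FreeGroup.mul_mk, h2, h4, _root_.map_mul]⟩
  obtain ⟨L, h1, h2⟩ := key
  rw [← h2, FreeGroup.toWord_mk]
  exact h1.reduce

theorem Good.twist (θ : MulAut (FreeGroup (Fin N))) {L : List (Fin M × Bool)}
    (h : Good φ κ L) : Good (φ.comp θ.toMonoidHom) κ L := by
  intro u i b v huv
  obtain ⟨k, hk⟩ := h u i b v huv
  refine ⟨θ⁻¹ k, ?_⟩
  rw [hk]
  congr 1
  change φ k = φ (θ (θ⁻¹ k))
  rw [MulAut.apply_inv_self]

end good

end Pool.Agent.X72.CV
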