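import Mathlib
import Pool.Agent.X72.CV.Tr

set_option autoImplicit false

/-!
# Two points of `CV_2` with the same lengths on a given finite set of primitive elements
-/

namespace Pool.Agent.X72.CV

open Pool.Agent.H472R3 FreeGroup

/-- the marking of the theta graph -/
def ph1 : F2 →* FreeGroup (Fin 3) := FreeGroup.lift ![of 0 * (of 1)⁻¹, of 0 * (of 2)⁻¹]

/-- the marking of the barbell graph -/
def ph2 : F2 →* FreeGroup (Fin 3) := FreeGroup.lift ![of 0, of 1 * of 2 * (of 1)⁻¹]

/-- the lengths of the edges of the theta graph -/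
noncomputable def wA : Fin 3 → ℝ := ![1 / 4, 1 / 4, 1 / 2]

/-- the lengths of the edges of the barbell graph -/
noncomputable def wB : Fin 3 → ℝ := ![1 / 2, 1 / 4, 1 / 4]

theorem wA_ge (i : Fin 3) : 1 / 4 ≤ wA i := by
  fin_cases i <;> (simp [wA]; try norm_num)

theorem wB_ge (i : Fin 3) : 1 / 4 ≤ wB i := by
  fin_cases i <;> (simp [wB]; try norm_num)

theorem wA_pos (i : Fin 3) : 0 < wA i := by have := wA_ge i; linarith
theorem wB_pos (i : Fin 3) : 0 < wB i := by have := wB_ge i; linarith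

theorem ph1_0 : ph1 (of 0) = FreeGroup.mk [(0, true), (1, false)] := by
  simp only [ph1, FreeGroup.lift_apply_of]
  rfl

theorem ph1_1 : ph1 (of 1) = FreeGroup.mk [(0, true), (2, false)] := by
  simp only [ph1, FreeGroup.lift_apply_of]
  rfl

theorem ph2_0 : ph2 (of 0) = FreeGroup.mk [(0, true)] := by
  simp only [ph2, FreeGroup.lift_apply_of]
  rfl

theorem ph2_1 : ph2 (of 1) = FreeGroup.mk [(1, true), (2, true), (1, false)] := by
  simp only [ph2, FreeGroup.lift_apply_of]
  rfl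

theorem ph1_inj (g : F2) (h : ph1 g = 1) : g = 1 := by
  have h1 : (FreeGroup.lift ![1, (of 0)⁻¹, (of 1)⁻¹] : FreeGroup (Fin 3) →* F2).comp ph1 =
      MonoidHom.id F2 := by
    apply hom_ext2 <;> simp [ph1]
  have h2 := DFunLike.congr_fun h1 g
  rw [MonoidHom.comp_apply, h, _root_.map_one] at h2
  exact h2.symm

theorem ph2_inj (g : F2) (h : ph2 g = 1) : g = 1 := by
  have h1 : (FreeGroup.lift ![of 0, 1, of 1] : FreeGroup (Fin 3) →* F2).comp ph2 =
      MonoidHom.id F2 := by
    apply hom_ext2 <;> simp [ph2]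
  have h2 := DFunLike.congr_fun h1 g
  rw [MonoidHom.comp_apply, h, _root_.map_one] at h2
  exact h2.symm

def G1 : Fin 2 → List (Fin 3 × Bool) := ![[(0, true), (1, false)], [(0, true), (2, false)]]
def G2 : Fin 2 → List (Fin 3 × Bool) := ![[(0, true)], [(1, true), (2, true), (1, false)]]

theorem mk_G1 (i : Fin 2) : FreeGroup.mk (G1 i) = ph1 (of i) := by
  fin_cases i
  · exact ph1_0.symm
  · exact ph1_1.symm

theorem mk_G2 (i : Fin 2) : FreeGroup.mk (G2 i) = ph2 (of i) := by
  fin_cases i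
  · exact ph2_0.symm
  · exact ph2_1.symm

/-- base vertices of the edges of the barbell graph -/
def kap2 : Fin 3 → FreeGroup (Fin 3) := ![1, 1, of 1]

theorem mk_nil : (FreeGroup.mk [] : FreeGroup (Fin 3)) = 1 := rfl

/-- to check `Good` for a short word -/
theorem good_cons {φ : F2 →* FreeGroup (Fin 3)} {κ : Fin 3 → FreeGroup (Fin 3)}
    {L : List (Fin 3 × Bool)}
    (h : ∀ n : Fin L.length, ∃ h : F2,
      FreeGroup.mk (if (L.get n).2 then L.take n else L.take (n + 1)) = φ h * κ (L.get n).1) :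
    Good φ κ L := by
  intro u i b v huv
  subst huv
  obtain ⟨k, hk⟩ := h ⟨u.length, by simp⟩
  refine ⟨k, ?_⟩
  have e2 : (u ++ (i, b) :: v).take (u.length + 1) = u ++ [(i, b)] := by
    rw [List.take_append, List.take_of_length_le (by omega)]
    simp
  rw [e2] at hk
  simpa using hk

theorem good_G1 (i : Fin 2) : Good ph1 (fun _ => 1) (G1 i) := by
  apply good_cons
  fin_cases i
  · intro n
    change Fin 2 at n
    fin_cases n
    · exact ⟨1, by simp [G1, mk_nil]⟩
    · exact ⟨of 0, by rw [ph1_0]; simp [G1]⟩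
  · intro n
    change Fin 2 at n
    fin_cases n
    · exact ⟨1, by simp [G1, mk_nil]⟩
    · exact ⟨of 1, by rw [ph1_1]; simp [G1]⟩

theorem good_G2 (i : Fin 2) : Good ph2 kap2 (G2 i) := by
  apply good_cons
  fin_cases i
  · intro n
    change Fin 1 at n
    fin_cases n
    exact ⟨1, by simp [G2, kap2, mk_nil]⟩
  · intro n
    change Fin 3 at n
    fin_cases n
    · exact ⟨1, by simp [G2, kap2, mk_nil]⟩
    · exact ⟨1, by simp [G2, kap2]; rfl⟩
    · exact ⟨of 1, by rw [ph2_1]; simp [G2, kap2]⟩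

theorem wA_nn (i : Fin 3) : 0 ≤ wA i := (wA_pos i).le
theorem wB_nn (i : Fin 3) : 0 ≤ wB i := (wB_pos i).le

/-- the first tree -/
noncomputable def TA (θ : MulAut F2) : FTree 2 := (lf wA_nn (ph1.comp θ.toMonoidHom)).tree

/-- the second tree -/
noncomputable def TB (θ : MulAut F2) : FTree 2 := (lf wB_nn (ph2.comp θ.toMonoidHom)).tree

theorem apply_symm (φ : F2 →* FreeGroup (Fin 3)) (θ : MulAut F2) (g : F2) :
    (φ.comp θ.toMonoidHom) (θ⁻¹ g) = φ g := by
  change φ (θ (θ⁻¹ g)) = φ g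
  rw [MulAut.apply_inv_self]

theorem inj_twist {φ : F2 →* FreeGroup (Fin 3)} (h : ∀ g, φ g = 1 → g = 1) (θ : MulAut F2)
    (g : F2) (hg : (φ.comp θ.toMonoidHom) g = 1) : g = 1 := by
  have h1 : θ g = 1 := h _ hg
  exact (map_eq_one_iff θ θ.injective).1 h1

theorem TA_inCV (θ : MulAut F2) : (TA θ).InCV := by
  refine lf_inCV wA_nn _ (ε := 1 / 4) (by norm_num) wA_ge (inj_twist ph1_inj θ)
    (h := θ⁻¹ (of 0)) (l := [(0, true), (1, false)]) ?_ (by simp) ?_
  · simp [FreeGroup.IsReduced]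
  · rw [apply_symm, ph1_0]

theorem TB_inCV (θ : MulAut F2) : (TB θ).InCV := by
  refine lf_inCV wB_nn _ (ε := 1 / 4) (by norm_num) wB_ge (inj_twist ph2_inj θ)
    (h := θ⁻¹ (of 0)) (l := [(0, true)]) ?_ (by simp) ?_
  · simp [FreeGroup.IsReduced]
  · rw [apply_symm, ph2_0]

theorem toWord_mk' {l : List (Fin 3 × Bool)} (h : FreeGroup.reduce l = l) :
    (FreeGroup.mk l).toWord = l := by
  rw [FreeGroup.toWord_mk, h]

theorem TA_cov (θ : MulAut F2) : HasCovolume (TA θ) 1 := by
  have h := covolume wA_nn (ph1.comp θ.toMonoidHom) wA_pos (inj_twist ph1_inj θ) (by norm_num)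
    (fun _ => 1) ![θ⁻¹ (of 0), θ⁻¹ (of 0)⁻¹, θ⁻¹ (of 1)⁻¹] ?_ ?_
  · have e : ∑ i, wA i = 1 := by
      rw [Fin.sum_univ_three]
      simp [wA]
      norm_num
    rw [e] at h
    exact h
  · intro i
    fin_cases i
    · refine ⟨[(1, false)], ?_⟩
      change ((ph1.comp θ.toMonoidHom) (θ⁻¹ (of 0))).toWord = _
      rw [apply_symm, ph1_0, toWord_mk' (by decide)]
      simp
    · refine ⟨[(0, false)], ?_⟩
      change ((ph1.comp θ.toMonoidHom) (θ⁻¹ (of 0)⁻¹)).toWord = _
      rw [apply_symm, _root_.map_inv, ph1_0, FreeGroup.inv_mk, toWord_mk' (by decide)]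
      simp [FreeGroup.invRev]
    · refine ⟨[(0, false)], ?_⟩
      change ((ph1.comp θ.toMonoidHom) (θ⁻¹ (of 1)⁻¹)).toWord = _
      rw [apply_symm, _root_.map_inv, ph1_1, FreeGroup.inv_mk, toWord_mk' (by decide)]
      simp [FreeGroup.invRev]
  · intro g
    exact (good_all G1 good_G1 mk_G1 (θ g)).twist θ

theorem TB_cov (θ : MulAut F2) : HasCovolume (TB θ) 1 := by
  have h := covolume wB_nn (ph2.comp θ.toMonoidHom) wB_pos (inj_twist ph2_inj θ) (by norm_num)
    kap2 ![θ⁻¹ (of 0), θ⁻¹ (of 1), θ⁻¹ (of 1)] ?_ ?_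
  · have e : ∑ i, wB i = 1 := by
      rw [Fin.sum_univ_three]
      simp [wB]
      norm_num
    rw [e] at h
    exact h
  · intro i
    fin_cases i
    · refine ⟨[], ?_⟩
      change ((ph2.comp θ.toMonoidHom) (θ⁻¹ (of 0))).toWord = _
      rw [apply_symm, ph2_0, toWord_mk' (by decide)]
      simp [kap2]
    · refine ⟨[(2, true), (1, false)], ?_⟩
      change ((ph2.comp θ.toMonoidHom) (θ⁻¹ (of 1))).toWord = _
      rw [apply_symm, ph2_1, toWord_mk' (by decide)]
      simp [kap2]
    · refine ⟨[(1, false)], ?_⟩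
      change ((ph2.comp θ.toMonoidHom) (θ⁻¹ (of 1))).toWord = _
      rw [apply_symm, ph2_1, toWord_mk' (by decide)]
      simp [kap2]
  · intro g
    exact (good_all G2 good_G2 mk_G2 (θ g)).twist θ

/-! ### Lengths of positive words in `a` and `a b` -/

def B1 : Fin 2 → List (Fin 3 × Bool) :=
  ![[(0, true), (1, false)], [(0, true), (1, false), (0, true), (2, false)]]
def B2 : Fin 2 → List (Fin 3 × Bool) :=
  ![[(0, true)], [(0, true), (1, true), (2, true), (1, false)]]

theorem flat_reduced {B : Fin 2 → List (Fin 3 × Bool)} (h1 : ∀ i, FreeGroup.IsReduced (B i))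
    (h2 : ∀ i, (B i).head? = some (0, true))
    (h3 : ∀ i, ∀ x ∈ (B i).getLast?, x.1 = 0 → x.2 = true) (v : List (Fin 2)) :
    FreeGroup.IsReduced (v.flatMap B) := by
  induction v with
  | nil => simp [FreeGroup.IsReduced]
  | cons i v ih =>
    rw [List.flatMap_cons]
    unfold FreeGroup.IsReduced at *
    rw [List.isChain_append]
    refine ⟨h1 i, ih, ?_⟩
    intro x hx y hy
    have hy' : y = (0, true) := by
      cases v with
      | nil => simp at hy
      | cons j v =>
        rw [List.flatMap_cons] at hy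
        have := h2 j
        cases hB : B j with
        | nil => rw [hB] at this; simp at this
        | cons c l =>
          rw [hB] at this hy
          simp at this hy
          rw [← hy, this]
    subst hy'
    intro hxy
    exact h3 i x hx hxy

theorem map_flat {φ : F2 →* FreeGroup (Fin 3)} {B : Fin 2 → List (Fin 3 × Bool)}
    (h : ∀ i, φ (of i) = FreeGroup.mk (B i)) (v : List (Fin 2)) :
    φ (pw v) = FreeGroup.mk (v.flatMap B) := by
  induction v with
  | nil => simp [pw]; rfl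
  | cons i v ih =>
    have e1 : pw (i :: v) = of i * pw v := by simp [pw]
    rw [e1, _root_.map_mul, ih, h, List.flatMap_cons, FreeGroup.mul_mk]

theorem B1_spec (i : Fin 2) : (ph1.comp Tw) (of i) = FreeGroup.mk (B1 i) := by
  fin_cases i
  · change ph1 (Tw (of 0)) = _
    rw [Tw_0, ph1_0]; rfl
  · change ph1 (Tw (of 1)) = _
    rw [Tw_1, _root_.map_mul, ph1_0, ph1_1]; rfl

theorem B2_spec (i : Fin 2) : (ph2.comp Tw) (of i) = FreeGroup.mk (B2 i) := by
  fin_cases i
  · change ph2 (Tw (of 0)) = _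
    rw [Tw_0, ph2_0]; rfl
  · change ph2 (Tw (of 1)) = _
    rw [Tw_1, _root_.map_mul, ph2_0, ph2_1]; rfl

theorem red1 (v : List (Fin 2)) : FreeGroup.IsReduced (v.flatMap B1) := by
  apply flat_reduced
  · intro i; fin_cases i <;> simp [B1, FreeGroup.IsReduced]
  · intro i; fin_cases i <;> simp [B1]
  · intro i; fin_cases i <;> simp [B1]

theorem red2 (v : List (Fin 2)) : FreeGroup.IsReduced (v.flatMap B2) := by
  apply flat_reduced
  · intro i; fin_cases i <;> simp [B2, FreeGroup.IsReduced]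
  · intro i; fin_cases i <;> simp [B2]
  · intro i; fin_cases i <;> simp [B2]

theorem len_TA (θ : MulAut F2) (v : List (Fin 2)) :
    (TA θ).len (θ⁻¹ (Tw (pw v))) = W wA (v.flatMap B1) := by
  refine len_of wA_nn _ ?_ ?_
  · rw [← List.flatMap_append]
    exact red1 _
  · rw [apply_symm]
    exact map_flat B1_spec v

theorem len_TB (θ : MulAut F2) (v : List (Fin 2)) :
    (TB θ).len (θ⁻¹ (Tw (pw v))) = W wB (v.flatMap B2) := by
  refine len_of wB_nn _ ?_ ?_
  · rw [← List.flatMap_append]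
    exact red2 _
  · rw [apply_symm]
    exact map_flat B2_spec v

theorem W_eq (v : List (Fin 2)) : W wA (v.flatMap B1) = W wB (v.flatMap B2) := by
  induction v with
  | nil => simp [W]
  | cons i v ih =>
    rw [List.flatMap_cons, List.flatMap_cons, W_append, W_append, ih]
    congr 1
    fin_cases i
    · simp [B1, B2, W, wA, wB]; norm_num
    · simp [B1, B2, W, wA, wB]; norm_num

theorem differ (θ : MulAut F2) : (TA θ).len (θ⁻¹ ((of 1)⁻¹ * of 0)) ≠
    (TB θ).len (θ⁻¹ ((of 1)⁻¹ * of 0)) := by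
  have h1 : (TA θ).len (θ⁻¹ ((of 1)⁻¹ * of 0)) = W wA [(2, true), (1, false)] := by
    refine len_of wA_nn _ ?_ ?_
    · simp [FreeGroup.IsReduced]
    · rw [apply_symm, _root_.map_mul, _root_.map_inv, ph1_0, ph1_1, FreeGroup.inv_mk,
        FreeGroup.mul_mk]
      apply FreeGroup.reduce.exact
      decide
  have h2 : (TB θ).len (θ⁻¹ ((of 1)⁻¹ * of 0)) =
      W wB [(1, true), (2, false), (1, false), (0, true)] := by
    refine len_of wB_nn _ ?_ ?_
    · simp [FreeGroup.IsReduced]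
    · rw [apply_symm, _root_.map_mul, _root_.map_inv, ph2_0, ph2_1, FreeGroup.inv_mk,
        FreeGroup.mul_mk]
      apply FreeGroup.reduce.exact
      decide
  rw [h1, h2]
  simp [W, wA, wB]
  norm_num

/-- the transvection as an automorphism -/
def Tw' : F2 →* F2 := FreeGroup.lift ![of 0, (of 0)⁻¹ * of 1]

theorem Tw_Tw' : Tw.comp Tw' = MonoidHom.id F2 := by
  apply hom_ext2 <;> simp [Tw']

theorem Tw'_Tw : Tw'.comp Tw = MonoidHom.id F2 := by
  apply hom_ext2 <;> simp [Tw']

def TwA : MulAut F2 where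
  toFun := Tw
  invFun := Tw'
  left_inv x := DFunLike.congr_fun Tw'_Tw x
  right_inv x := DFunLike.congr_fun Tw_Tw' x
  map_mul' := Tw.map_mul

theorem TwI_eq (n : ℕ) (x : F2) : TwI n x = (TwA ^ n) x := by
  induction n generalizing x with
  | zero => rfl
  | succ n ih =>
    rw [pow_succ, MulAut.mul_apply]
    change TwI n (Tw x) = _
    rw [ih]
    rfl

/-- Every finite set of primitive elements has the same translation lengths for two different points
of `CV_2`. -/
theorem exists_pair (S : Set F2) (hS : S.Finite)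
    (hp : ∀ s ∈ S, ∃ (φ : MulAut F2) (i : Fin 2), φ (of i) = s) :
    ∃ θ : MulAut F2, ∀ s ∈ S, (TA θ).len s = (TB θ).len s := by
  have h1 : ∀ s : F2, ∃ K : ℕ, s ∈ S → ∀ n : ℕ, K ≤ n →
      ∃ (c : F2) (e : Bool) (v : List (Fin 2)), v ≠ [] ∧ TwI n s = c * sg e (pw v) * c⁻¹ := by
    intro s
    by_cases hs : s ∈ S
    · obtain ⟨φ, i, rfl⟩ := hp s hs
      obtain ⟨K, hK⟩ := eventually_pos φ i
      exact ⟨K, fun _ => hK⟩
    · exact ⟨0, fun h => absurd h hs⟩
  choose K hK using h1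
  obtain ⟨n, hn⟩ : ∃ n, ∀ s ∈ S, K s ≤ n := by
    obtain ⟨n, hn⟩ := (hS.image K).bddAbove
    exact ⟨n, fun s hs => hn ⟨s, hs, rfl⟩⟩
  refine ⟨TwA ^ (n + 1), fun s hs => ?_⟩
  obtain ⟨c, e, v, -, h2⟩ := hK s hs n (hn s hs)
  set θ : MulAut F2 := TwA ^ (n + 1) with hθ
  have h3 : θ s = Tw c * sg e (Tw (pw v)) * (Tw c)⁻¹ := by
    rw [hθ, pow_succ', MulAut.mul_apply, ← TwI_eq, h2]
    change Tw _ = _
    rw [_root_.map_mul, _root_.map_mul, _root_.map_inv]
    cases e <;> simp [sg]
  have h4 : s = θ⁻¹ (Tw c) * sg e (θ⁻¹ (Tw (pw v))) * (θ⁻¹ (Tw c))⁻¹ := by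
    have h5 : s = θ⁻¹ (θ s) := (MulAut.inv_apply_self F2 θ s).symm
    rw [h3, _root_.map_mul, _root_.map_mul, _root_.map_inv] at h5
    rw [h5]
    cases e <;> simp [sg]
  have h5 : ∀ A : FTree 2, A.len s = A.len (θ⁻¹ (Tw (pw v))) := by
    intro A
    rw [h4, len_conj]
    cases e
    · simp only [sg, Bool.false_eq_true, if_false]
      rw [len_inv]
    · simp only [sg, if_true]
  rw [h5, h5, len_TA, len_TB, W_eq]

end Pool.Agent.X72.CV
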